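import Pool.Agent.Helper797.WeightedHardy
set_option autoImplicit false
open MeasureTheory Real Filter Topology
open scoped RealInnerProductSpace Gradient ContDiff

namespace Pool.Agent.Results.MP_5b99fd_an.BestConstant

open Pool.Agent.Helper797.WeightedHardy

/-- The admissible class of the problem: nonzero real test functions, smooth with compact
support, with zero weighted mean when the exponent lies below `-(n-2)/2`. -/
def Admissible (n : ℕ) (α : ℝ) (u : EuclideanSpace ℝ (Fin n) → ℝ) : Prop :=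
  ContDiff ℝ ∞ u ∧ HasCompactSupport u ∧ u ≠ 0 ∧
    (α < -((n : ℝ) - 2) / 2 → ∫ x, (1 + ‖x‖ ^ 2) ^ (α - 1) * u x = 0)

/-- The best constant of the weighted Hardy inequality: the infimum of the Rayleigh quotients. -/
noncomputable def bestConst (n : ℕ) (α : ℝ) : ℝ :=
  sInf {q : ℝ | ∃ u : EuclideanSpace ℝ (Fin n) → ℝ, Admissible n α u ∧
    q = (∫ x, (1 + ‖x‖ ^ 2) ^ α * ‖∇ u x‖ ^ 2) / ∫ x, (1 + ‖x‖ ^ 2) ^ (α - 1) * (u x) ^ 2}

lemma bestConst_eq {n : ℕ} {α l : ℝ}
    (h1 : ∀ u : E n → ℝ, Admissible n α u → l * mass α u ≤ energy α u)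
    (h2 : ∀ b, l < b → ∃ u : E n → ℝ, Admissible n α u ∧ energy α u / mass α u < b) :
    bestConst n α = l := by
  unfold bestConst
  apply csInf_eq_of_forall_ge_of_forall_gt_exists_lt
  · obtain ⟨u, hu, _⟩ := h2 (l + 1) (by linarith)
    exact ⟨_, u, hu, rfl⟩
  · rintro q ⟨u, hu, rfl⟩
    have hm := mass_pos (α := α) hu.1 hu.2.1 hu.2.2.1
    have := h1 u hu
    exact (le_div_iff₀ hm).mpr this
  · intro b hb
    obtain ⟨u, hu, hlt⟩ := h2 b hb
    exact ⟨_, ⟨u, hu, rfl⟩, hlt⟩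

/-- The admissible class is never empty, so the infimum is taken over a nonempty set. -/
lemma exists_admissible (n : ℕ) (hn : 3 ≤ n) (α : ℝ) : ∃ u, Admissible n α u := by
  have hn' : (3 : ℝ) ≤ n := by exact_mod_cast hn
  by_cases h : α < -((n : ℝ) - 2) / 2
  · obtain ⟨u, h1, h2, h3, h4, _⟩ := near_B1 (n := n) hn h (b := ((n : ℝ) - 2 + 2 * α) ^ 2 / 4 + 1) (by linarith)
    exact ⟨u, h1, h2, h3, fun _ => h4⟩
  · refine ⟨chi 0, chi_contDiff 0, chi_hcs 0, ?_, fun h' => absurd h' h⟩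
    intro h0
    have h1 : (chi 0 : E n → ℝ) 0 = 1 := chi_eq_one (by simp)
    rw [h0] at h1
    simp at h1

/-- The best constant for every dimension `n ≥ 3` and every exponent `α ≠ -(n-2)/2`. -/
theorem result : ∀ n : ℕ, 3 ≤ n → ∀ α : ℝ, α ≠ -((n : ℝ) - 2) / 2 →
    bestConst n α =
      if α < -(n : ℝ) then -2 * α
      else if α < -((n : ℝ) + 2) / 2 then -4 * α - 2 * (n : ℝ)
      else if α ≤ ((n : ℝ) + 2) / 2 then ((n : ℝ) + 2 * α - 2) ^ 2 / 4
      else 2 * (n : ℝ) * (α - 1) := by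
  intro n hn α hne
  have hn' : (3 : ℝ) ≤ n := by exact_mod_cast hn
  obtain ⟨m, rfl⟩ : ∃ m, n = m + 3 := ⟨n - 3, by omega⟩
  have hcast : ((m + 3 : ℕ) : ℝ) = (m : ℝ) + 3 := by push_cast; ring
  split_ifs with hA hB hC
  · -- α < -n
    have hlt : α < -(((m + 3 : ℕ) : ℝ) - 2) / 2 := by linarith
    apply bestConst_eq
    · intro u hu
      exact lower_mean (γ := α) (l0 := -4 * α - 2 * ((m : ℝ) + 3)) (by rw [hcast] at *; linarith)
        (by linarith) (by linarith) (by rw [hcast] at *; linarith) le_rfl u hu.1 hu.2.1 (hu.2.2.2 hlt)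
    · intro b hb
      obtain ⟨u, h1, h2, h3, h4, h5⟩ := near_B3 (n := m + 3) hn (α := α) (by linarith) hb
      exact ⟨u, ⟨h1, h2, h3, fun _ => h4⟩, h5⟩
  · -- -n ≤ α < -(n+2)/2
    push Not at hA
    have hlt : α < -(((m + 3 : ℕ) : ℝ) - 2) / 2 := by linarith
    apply bestConst_eq
    · intro u hu
      exact lower_mean (γ := α) (l0 := -4 * α - 2 * ((m + 3 : ℕ) : ℝ)) (by rw [hcast] at *; linarith)
        (by rw [hcast] at *; linarith) (by rw [hcast] at *; linarith) le_rfl (by rw [hcast] at *; linarith)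
        u hu.1 hu.2.1 (hu.2.2.2 hlt)
    · intro b hb
      obtain ⟨u, h1, h2, h3, h4, h5⟩ := near_B2 (n := m + 3) hn (α := α) hB (b := b) (by linarith)
      exact ⟨u, ⟨h1, h2, h3, fun _ => h4⟩, h5⟩
  · push Not at hB
    rcases lt_or_gt_of_ne hne with hlt | hgt
    · -- -(n+2)/2 ≤ α < -(n-2)/2
      apply bestConst_eq
      · intro u hu
        have hK : ((m + 3 : ℕ) : ℝ) + 2 * α - 2 < 0 := by linarith
        have hK4 : -4 ≤ ((m + 3 : ℕ) : ℝ) + 2 * α - 2 := by linarith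
        have hKpos : 0 < (((m + 3 : ℕ) : ℝ) + 2 * α - 2) ^ 2 / 4 := by
          have := sq_pos_of_neg hK
          linarith
        refine lower_mean (γ := (2 * α - 2 - ((m + 3 : ℕ) : ℝ)) / 4) (l0 := (((m + 3 : ℕ) : ℝ) + 2 * α - 2) ^ 2 / 4) hKpos
          ?_ ?_ le_rfl ?_ u hu.1 hu.2.1 (hu.2.2.2 hlt)
        · rw [hcast] at *
          have hm : (0:ℝ) ≤ m := Nat.cast_nonneg m
          nlinarith [mul_nonneg (show (0:ℝ) ≤ (m : ℝ) + 3 + 2 * α - 2 + 4 by linarith) (show (0:ℝ) ≤ 2 * ((m : ℝ) + 3) - ((m : ℝ) + 3 + 2 * α - 2) by linarith)]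
        · rw [hcast] at *
          apply le_of_eq
          ring
        · rw [hcast] at *
          have hm : (0:ℝ) ≤ m := Nat.cast_nonneg m
          nlinarith
      · intro b hb
        obtain ⟨u, h1, h2, h3, h4, h5⟩ := near_B1 (n := m + 3) hn hlt (b := b) (by
          have : ((m + 3 : ℕ) : ℝ) - 2 + 2 * α = ((m + 3 : ℕ) : ℝ) + 2 * α - 2 := by ring
          rw [this]; exact hb)
        exact ⟨u, ⟨h1, h2, h3, fun _ => h4⟩, h5⟩
    · -- -(n-2)/2 < α ≤ (n+2)/2
      have hno : ¬ (α < -(((m + 3 : ℕ) : ℝ) - 2) / 2) := not_lt.mpr hgt.le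
      apply bestConst_eq
      · intro u hu
        exact lower_hardy (by linarith) hC u hu.1 hu.2.1
      · intro b hb
        obtain ⟨u, h1, h2, h3, h4⟩ := exists_near_hardy (n := m + 3) (by linarith) hb
        exact ⟨u, ⟨h1, h2, h3, fun h5 => absurd h5 hno⟩, h4⟩
  · -- α > (n+2)/2
    push Not at hC
    have hno : ¬ (α < -(((m + 3 : ℕ) : ℝ) - 2) / 2) := by
      intro h; linarith
    apply bestConst_eq
    · intro u hu
      exact lower_ground u hu.1 hu.2.1
    · intro b hb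
      obtain ⟨u, h1, h2, h3, h4⟩ := exists_near_ground (n := m + 3) (by linarith) hC hb
      exact ⟨u, ⟨h1, h2, h3, fun h5 => absurd h5 hno⟩, h4⟩

end Pool.Agent.Results.MP_5b99fd_an.BestConstant
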