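import Mathlib
set_option autoImplicit false
open MeasureTheory Real Filter Topology
open scoped RealInnerProductSpace Gradient ContDiff

namespace Pool.Agent.Results.MP_5b99fd_an.LargeAlpha

abbrev E (n : ℕ) := EuclideanSpace ℝ (Fin n)

variable {n : ℕ}

lemma one_add_pos (x : E n) : 0 < 1 + ‖x‖ ^ 2 := by positivity

lemma contDiff_weight (γ : ℝ) {k : WithTop ℕ∞} : ContDiff ℝ k (fun x : E n => (1 + ‖x‖ ^ 2) ^ γ) := by
  apply ContDiff.rpow_const_of_ne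
  · exact contDiff_const.add (contDiff_norm_sq ℝ)
  · intro x; exact (one_add_pos x).ne'

lemma fderiv_weight (γ : ℝ) (x v : E n) :
    fderiv ℝ (fun x : E n => (1 + ‖x‖ ^ 2) ^ γ) x v = 2 * γ * (1 + ‖x‖ ^ 2) ^ (γ - 1) * ⟪x, v⟫ := by
  have h1 : HasFDerivAt (fun x : E n => 1 + ‖x‖ ^ 2) (2 • (innerSL ℝ x)) x := by
    have := (hasStrictFDerivAt_norm_sq x).hasFDerivAt
    simpa using this.const_add 1
  have h2 := h1.rpow_const (p := γ) (Or.inl (one_add_pos x).ne')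
  rw [h2.fderiv]
  simp
  ring

/-- integration by parts for C^1 compactly supported ψ against a C^1 function -/
lemma ibp (f ψ : E n → ℝ) (hf : ContDiff ℝ 1 f) (hψ : ContDiff ℝ 1 ψ) (hc : HasCompactSupport ψ)
    (v : E n) : ∫ x, f x * fderiv ℝ ψ x v = - ∫ x, fderiv ℝ f x v * ψ x := by
  have hfd : Continuous (fun x => fderiv ℝ f x v) := (hf.continuous_fderiv one_ne_zero).clm_apply continuous_const
  have hpd : Continuous (fun x => fderiv ℝ ψ x v) := (hψ.continuous_fderiv one_ne_zero).clm_apply continuous_const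
  apply integral_mul_fderiv_eq_neg_fderiv_mul_of_integrable
  · exact (hfd.mul hψ.continuous).integrable_of_hasCompactSupport hc.mul_left
  · refine (hf.continuous.mul hpd).integrable_of_hasCompactSupport ?_
    exact (hc.fderiv_apply (𝕜 := ℝ) v).mul_left
  · exact (hf.continuous.mul hψ.continuous).integrable_of_hasCompactSupport hc.mul_left
  · intro x _; exact hf.differentiable (by norm_num) x
  · intro x _; exact hψ.differentiable (by norm_num) x

lemma sum_fderiv (ψ : E n → ℝ) (x : E n) :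
    fderiv ℝ ψ x x = ∑ i, x i * fderiv ℝ ψ x (EuclideanSpace.single i 1) := by
  have h : x = ∑ i, x i • (EuclideanSpace.single i (1:ℝ) : E n) := by
    have := (EuclideanSpace.basisFun (Fin n) ℝ).sum_repr x
    simpa using this.symm
  have h2 := congrArg (fun y => fderiv ℝ ψ x y) h
  simp only [map_sum, map_smul, smul_eq_mul] at h2
  exact h2

lemma ibp_euler (γ : ℝ) (ψ : E n → ℝ) (hψ : ContDiff ℝ 1 ψ) (hc : HasCompactSupport ψ) :
    ∫ x, (1 + ‖x‖ ^ 2) ^ γ * fderiv ℝ ψ x x =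
      - ∫ x, (n * (1 + ‖x‖ ^ 2) ^ γ + 2 * γ * ‖x‖ ^ 2 * (1 + ‖x‖ ^ 2) ^ (γ - 1)) * ψ x := by
  have hcoord : ∀ i : Fin n, ContDiff ℝ 1 (fun x : E n => x i) := by
    intro i
    exact (EuclideanSpace.proj i : E n →L[ℝ] ℝ).contDiff
  have hw : ContDiff ℝ 1 (fun x : E n => (1 + ‖x‖ ^ 2) ^ γ) := contDiff_weight γ
  have hpd : ∀ v : E n, Continuous (fun x => fderiv ℝ ψ x v) := fun v =>
    (hψ.continuous_fderiv one_ne_zero).clm_apply continuous_const
  have key : ∀ i : Fin n, ∫ x : E n, ((1 + ‖x‖ ^ 2) ^ γ * x i) * fderiv ℝ ψ x (EuclideanSpace.single i 1)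
      = - ∫ x : E n, ((1 + ‖x‖ ^ 2) ^ γ + 2 * γ * (1 + ‖x‖ ^ 2) ^ (γ - 1) * (x i) ^ 2) * ψ x := by
    intro i
    rw [ibp (fun x : E n => (1 + ‖x‖ ^ 2) ^ γ * x i) ψ (hw.mul (hcoord i)) hψ hc]
    congr 1
    apply integral_congr_ae
    filter_upwards with x
    congr 1
    have h1 : HasFDerivAt (fun x : E n => (1 + ‖x‖ ^ 2) ^ γ) (fderiv ℝ (fun x : E n => (1 + ‖x‖ ^ 2) ^ γ) x) x :=
      (hw.differentiable one_ne_zero x).hasFDerivAt
    have h2 : HasFDerivAt (fun x : E n => x i) (EuclideanSpace.proj i : E n →L[ℝ] ℝ) x :=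
      (EuclideanSpace.proj i : E n →L[ℝ] ℝ).hasFDerivAt
    rw [(h1.fun_mul h2).fderiv]
    simp only [add_apply, smul_apply, smul_eq_mul,
      fderiv_weight]
    simp [EuclideanSpace.inner_single_right]
    ring
  have hint : ∀ i ∈ (Finset.univ : Finset (Fin n)), Integrable (fun x : E n => ((1 + ‖x‖ ^ 2) ^ γ * x i) * fderiv ℝ ψ x (EuclideanSpace.single i 1)) := by
    intro i _
    refine ((hw.continuous.mul (hcoord i).continuous).mul (hpd _)).integrable_of_hasCompactSupport ?_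
    exact (hc.fderiv_apply (𝕜 := ℝ) _).mul_left
  have hint2 : ∀ i ∈ (Finset.univ : Finset (Fin n)), Integrable (fun x : E n => ((1 + ‖x‖ ^ 2) ^ γ + 2 * γ * (1 + ‖x‖ ^ 2) ^ (γ - 1) * (x i) ^ 2) * ψ x) := by
    intro i _
    refine Continuous.integrable_of_hasCompactSupport ?_ hc.mul_left
    refine (hw.continuous.add ?_).mul hψ.continuous
    exact (continuous_const.mul (contDiff_weight (k := 1) (γ - 1)).continuous).mul ((hcoord i).continuous.pow 2)
  calc ∫ x, (1 + ‖x‖ ^ 2) ^ γ * fderiv ℝ ψ x x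
      = ∫ x : E n, ∑ i, ((1 + ‖x‖ ^ 2) ^ γ * x i) * fderiv ℝ ψ x (EuclideanSpace.single i 1) := by
        apply integral_congr_ae
        filter_upwards with x
        rw [sum_fderiv, Finset.mul_sum]
        apply Finset.sum_congr rfl
        intro i _
        ring
    _ = ∑ i, ∫ x : E n, ((1 + ‖x‖ ^ 2) ^ γ * x i) * fderiv ℝ ψ x (EuclideanSpace.single i 1) :=
        integral_finsetSum _ hint
    _ = ∑ i, - ∫ x : E n, ((1 + ‖x‖ ^ 2) ^ γ + 2 * γ * (1 + ‖x‖ ^ 2) ^ (γ - 1) * (x i) ^ 2) * ψ x := by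
        apply Finset.sum_congr rfl
        intro i _
        exact key i
    _ = - ∫ x : E n, ∑ i, ((1 + ‖x‖ ^ 2) ^ γ + 2 * γ * (1 + ‖x‖ ^ 2) ^ (γ - 1) * (x i) ^ 2) * ψ x := by
        rw [integral_finsetSum _ hint2, Finset.sum_neg_distrib]
    _ = _ := by
        congr 1
        apply integral_congr_ae
        filter_upwards with x
        rw [← Finset.sum_mul, Finset.sum_add_distrib, ← Finset.mul_sum]
        simp only [Finset.sum_const, Finset.card_univ, Fintype.card_fin, nsmul_eq_mul]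
        have : ‖x‖ ^ 2 = ∑ i, (x i) ^ 2 := by
          rw [EuclideanSpace.norm_sq_eq]
          simp
        rw [← this]
        ring

noncomputable def energy (α : ℝ) (u : E n → ℝ) : ℝ := ∫ x, (1 + ‖x‖ ^ 2) ^ α * ‖∇ u x‖ ^ 2
noncomputable def mass (α : ℝ) (u : E n → ℝ) : ℝ := ∫ x, (1 + ‖x‖ ^ 2) ^ (α - 1) * (u x) ^ 2

lemma rpow_sub_one' (x : E n) (γ : ℝ) : (1 + ‖x‖ ^ 2) ^ γ = (1 + ‖x‖ ^ 2) ^ (γ - 1) * (1 + ‖x‖ ^ 2) := by
  have h := Real.rpow_add_one (one_add_pos x).ne' (γ - 1)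
  rw [sub_add_cancel] at h
  exact h

lemma inner_gradient (u : E n → ℝ) (x v : E n) : ⟪∇ u x, v⟫ = fderiv ℝ u x v := by
  rw [gradient, InnerProductSpace.toDual_symm_apply]

lemma continuous_gradient {u : E n → ℝ} (hu : ContDiff ℝ 1 u) : Continuous (fun x => ∇ u x) := by
  unfold gradient
  exact (InnerProductSpace.toDual ℝ (E n)).symm.continuous.comp (hu.continuous_fderiv one_ne_zero)

lemma hasCompactSupport_gradient {u : E n → ℝ} (hc : HasCompactSupport u) :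
    HasCompactSupport (fun x => ∇ u x) := by
  have := hc.fderiv (𝕜 := ℝ)
  exact this.comp_left (g := fun l => (InnerProductSpace.toDual ℝ (E n)).symm l) (by simp)

lemma fderiv_sq (u : E n → ℝ) (hu : ContDiff ℝ 1 u) (x v : E n) :
    fderiv ℝ (fun y => u y ^ 2) x v = 2 * u x * fderiv ℝ u x v := by
  have h1 : HasFDerivAt u (fderiv ℝ u x) x := (hu.differentiable one_ne_zero x).hasFDerivAt
  rw [(h1.pow 2).fderiv]
  simp

lemma hcs_sq {f : E n → ℝ} (hc : HasCompactSupport f) : HasCompactSupport (fun x => f x ^ 2) := by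
  refine hc.mono ?_
  intro x hx
  simp only [Function.mem_support] at hx ⊢
  intro h0
  apply hx
  rw [h0]; simp

lemma hcs_grad_sq {u : E n → ℝ} (hc : HasCompactSupport u) : HasCompactSupport (fun x => ‖∇ u x‖ ^ 2) :=
  hcs_sq (hasCompactSupport_gradient hc).norm

lemma hcs_fderiv_self {u : E n → ℝ} (hc : HasCompactSupport u) :
    HasCompactSupport (fun x => fderiv ℝ u x x) := by
  have := hc.fderiv (𝕜 := ℝ)
  refine this.mono ?_
  intro x hx
  simp only [Function.mem_support] at hx ⊢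
  intro h0
  apply hx
  rw [h0]; simp

lemma identityA (α β : ℝ) (u : E n → ℝ) (hu : ContDiff ℝ 1 u) (hc : HasCompactSupport u) :
    energy α u = (∫ x, (1 + ‖x‖ ^ 2) ^ (α - 1) * (2 * β * n + 4 * β * (α - 1 - β) * (‖x‖ ^ 2 / (1 + ‖x‖ ^ 2))) * (u x) ^ 2)
      + ∫ x, (1 + ‖x‖ ^ 2) ^ α * ‖∇ u x + (2 * β * u x / (1 + ‖x‖ ^ 2)) • x‖ ^ 2 := by
  have hcu2 : HasCompactSupport (fun x => u x ^ 2) := hcs_sq hc
  have hw : ∀ γ : ℝ, Continuous (fun x : E n => (1 + ‖x‖ ^ 2) ^ γ) := fun γ => (contDiff_weight (k := 1) γ).continuous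
  have hnorm : Continuous (fun x : E n => ‖x‖ ^ 2) := continuous_norm.pow 2
  have hI := ibp_euler (α - 1) (fun x => u x ^ 2) (hu.pow 2) hcu2
  have i1 : Integrable (fun x : E n => (1 + ‖x‖ ^ 2) ^ α * ‖∇ u x‖ ^ 2) := by
    refine ((hw α).mul ((continuous_gradient hu).norm.pow 2)).integrable_of_hasCompactSupport ?_
    exact (hcs_grad_sq hc).mul_left
  have i2 : Integrable (fun x : E n => (1 + ‖x‖ ^ 2) ^ (α - 1) * fderiv ℝ (fun x => u x ^ 2) x x) := by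
    refine ((hw (α-1)).mul ?_).integrable_of_hasCompactSupport ?_
    · exact ((hu.pow 2).continuous_fderiv one_ne_zero).clm_apply continuous_id
    · exact (hcs_fderiv_self hcu2).mul_left
  have i3 : Integrable (fun x : E n => 4 * β ^ 2 * ((1 + ‖x‖ ^ 2) ^ (α - 1 - 1) * ‖x‖ ^ 2 * u x ^ 2)) := by
    refine Continuous.integrable_of_hasCompactSupport ?_ ?_
    · exact continuous_const.mul (((hw _).mul hnorm).mul (hu.continuous.pow 2))
    · exact (hcu2.mul_left).mul_left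
  have i4 : Integrable (fun x : E n => (n * (1 + ‖x‖ ^ 2) ^ (α - 1) + 2 * (α - 1) * ‖x‖ ^ 2 * (1 + ‖x‖ ^ 2) ^ (α - 1 - 1)) * u x ^ 2) := by
    refine Continuous.integrable_of_hasCompactSupport ?_ ?_
    · exact ((continuous_const.mul (hw _)).add ((continuous_const.mul hnorm).mul (hw _))).mul (hu.continuous.pow 2)
    · exact hcu2.mul_left
  have e1 : (∫ x, (1 + ‖x‖ ^ 2) ^ α * ‖∇ u x + (2 * β * u x / (1 + ‖x‖ ^ 2)) • x‖ ^ 2)
      = (∫ x : E n, (1 + ‖x‖ ^ 2) ^ α * ‖∇ u x‖ ^ 2) + 2 * β * (∫ x : E n, (1 + ‖x‖ ^ 2) ^ (α - 1) * fderiv ℝ (fun x => u x ^ 2) x x)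
        + ∫ x : E n, 4 * β ^ 2 * ((1 + ‖x‖ ^ 2) ^ (α - 1 - 1) * ‖x‖ ^ 2 * u x ^ 2) := by
    have i12 : Integrable (fun x : E n => (1 + ‖x‖ ^ 2) ^ α * ‖∇ u x‖ ^ 2 + 2 * β * ((1 + ‖x‖ ^ 2) ^ (α - 1) * fderiv ℝ (fun x => u x ^ 2) x x)) :=
      i1.add (i2.const_mul _)
    rw [← integral_const_mul, ← integral_add i1 (i2.const_mul _), ← integral_add i12 i3]
    apply integral_congr_ae
    filter_upwards with x
    rw [norm_add_sq_real, inner_smul_right, inner_gradient, norm_smul, fderiv_sq u hu]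
    rw [rpow_sub_one' x α, rpow_sub_one' x (α - 1)]
    have hx := (one_add_pos x).ne'
    rw [Real.norm_eq_abs, mul_pow, sq_abs]
    field_simp
    ring
  rw [e1, hI]
  have e2 : (∫ x : E n, (1 + ‖x‖ ^ 2) ^ (α - 1) * (2 * β * n + 4 * β * (α - 1 - β) * (‖x‖ ^ 2 / (1 + ‖x‖ ^ 2))) * (u x) ^ 2)
      = 2 * β * (∫ x : E n, (n * (1 + ‖x‖ ^ 2) ^ (α - 1) + 2 * (α - 1) * ‖x‖ ^ 2 * (1 + ‖x‖ ^ 2) ^ (α - 1 - 1)) * u x ^ 2)
        - ∫ x : E n, 4 * β ^ 2 * ((1 + ‖x‖ ^ 2) ^ (α - 1 - 1) * ‖x‖ ^ 2 * u x ^ 2) := by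
    rw [← integral_const_mul, ← integral_sub (i4.const_mul _) i3]
    apply integral_congr_ae
    filter_upwards with x
    rw [rpow_sub_one' x (α - 1)]
    have hx := (one_add_pos x).ne'
    field_simp
    ring
  rw [e2]
  unfold energy
  ring

lemma exists_bound_deriv_smoothTransition : ∃ K : ℝ, 0 ≤ K ∧ ∀ t, |deriv Real.smoothTransition t| ≤ K := by
  have hc : Continuous (deriv Real.smoothTransition) :=
    (Real.smoothTransition.contDiff (n := 1)).continuous_deriv le_rfl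
  have hcs : HasCompactSupport (deriv Real.smoothTransition) := by
    apply HasCompactSupport.intro (K := Set.Icc 0 1) isCompact_Icc
    intro x hx
    simp only [Set.mem_Icc, not_and_or, not_le] at hx
    rcases hx with h | h
    · have : Real.smoothTransition =ᶠ[𝓝 x] fun _ => 0 := by
        filter_upwards [Iio_mem_nhds h] with y hy
        exact Real.smoothTransition.zero_of_nonpos (le_of_lt hy)
      rw [this.deriv_eq]; simp
    · have : Real.smoothTransition =ᶠ[𝓝 x] fun _ => 1 := by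
        filter_upwards [Ioi_mem_nhds h] with y hy
        exact Real.smoothTransition.one_of_one_le (le_of_lt hy)
      rw [this.deriv_eq]; simp
  obtain ⟨K, hK⟩ := hc.bounded_above_of_compact_support hcs
  exact ⟨|K|, abs_nonneg _, fun t => (hK t).trans (le_abs_self K)⟩

/-- cutoff function -/
noncomputable def chi (m : ℕ) (x : E n) : ℝ := Real.smoothTransition (2 - ‖x‖ ^ 2 / ((m : ℝ) + 1) ^ 2)

lemma chi_contDiff (m : ℕ) {k : ℕ∞} : ContDiff ℝ k (chi m : E n → ℝ) := by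
  unfold chi
  apply Real.smoothTransition.contDiff.comp
  exact contDiff_const.sub ((contDiff_norm_sq ℝ).div_const _)

lemma chi_nonneg (m : ℕ) (x : E n) : 0 ≤ chi m x := Real.smoothTransition.nonneg _
lemma chi_le_one (m : ℕ) (x : E n) : chi m x ≤ 1 := Real.smoothTransition.le_one _

lemma chi_eq_one {m : ℕ} {x : E n} (h : ‖x‖ ^ 2 ≤ ((m : ℝ) + 1) ^ 2) : chi m x = 1 := by
  apply Real.smoothTransition.one_of_one_le
  have : ‖x‖ ^ 2 / ((m : ℝ) + 1) ^ 2 ≤ 1 := by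
    rw [div_le_one (by positivity)]; exact h
  linarith

lemma chi_eq_zero {m : ℕ} {x : E n} (h : 2 * ((m : ℝ) + 1) ^ 2 ≤ ‖x‖ ^ 2) : chi m x = 0 := by
  apply Real.smoothTransition.zero_of_nonpos
  have : 2 ≤ ‖x‖ ^ 2 / ((m : ℝ) + 1) ^ 2 := by
    rw [le_div_iff₀ (by positivity)]; exact h
  linarith

lemma chi_hcs (m : ℕ) : HasCompactSupport (chi m : E n → ℝ) := by
  apply HasCompactSupport.intro (K := Metric.closedBall 0 (2 * ((m : ℝ) + 1))) (isCompact_closedBall _ _)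
  intro x hx
  simp only [Metric.mem_closedBall, dist_zero_right, not_le] at hx
  apply chi_eq_zero
  have h0 : (0 : ℝ) < m + 1 := by positivity
  nlinarith

lemma chi_eventually (x : E n) : ∀ᶠ m : ℕ in atTop, (chi m : E n → ℝ) =ᶠ[𝓝 x] fun _ => 1 := by
  filter_upwards [eventually_ge_atTop (Nat.ceil (‖x‖ + 1))] with m hm
  have h1 : ‖x‖ + 1 ≤ m := by
    have := Nat.le_ceil (‖x‖ + 1)
    have h2 : ((Nat.ceil (‖x‖ + 1) : ℕ) : ℝ) ≤ m := by exact_mod_cast hm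
    linarith
  filter_upwards [Metric.ball_mem_nhds x one_pos] with y hy
  apply chi_eq_one
  have : ‖y‖ ≤ ‖x‖ + 1 := by
    have h3 : ‖y - x‖ < 1 := by simpa [dist_eq_norm] using hy
    calc ‖y‖ = ‖x + (y - x)‖ := by congr 1; abel
      _ ≤ ‖x‖ + ‖y - x‖ := norm_add_le _ _
      _ ≤ ‖x‖ + 1 := by linarith
  have h4 : ‖y‖ ≤ m + 1 := by linarith
  have h5 : 0 ≤ ‖y‖ := norm_nonneg _
  nlinarith

lemma fderiv_chi (m : ℕ) (x v : E n) :
    fderiv ℝ (chi m) x v = deriv Real.smoothTransition (2 - ‖x‖ ^ 2 / ((m : ℝ) + 1) ^ 2) * (-(2 / ((m : ℝ) + 1) ^ 2) * ⟪x, v⟫) := by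
  have h1 : HasFDerivAt (fun x : E n => 2 - ‖x‖ ^ 2 / ((m : ℝ) + 1) ^ 2) (-((((m : ℝ) + 1) ^ 2)⁻¹ • (2 • (innerSL ℝ x)))) x := by
    have := ((hasStrictFDerivAt_norm_sq x).hasFDerivAt).mul_const (((m : ℝ) + 1) ^ 2)⁻¹
    have h2 := this.const_sub 2
    simpa [div_eq_mul_inv] using h2
  have h3 : HasDerivAt Real.smoothTransition (deriv Real.smoothTransition (2 - ‖x‖ ^ 2 / ((m : ℝ) + 1) ^ 2)) (2 - ‖x‖ ^ 2 / ((m : ℝ) + 1) ^ 2) :=
    ((Real.smoothTransition.contDiff (n := 1)).differentiable one_ne_zero _).hasDerivAt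
  have h4 := h3.comp_hasFDerivAt x h1
  have : fderiv ℝ (chi m) x = _ := h4.fderiv
  rw [this]
  simp
  left
  ring

lemma gradient_chi_bound {K : ℝ} (hK : ∀ t, |deriv Real.smoothTransition t| ≤ K) (hK0 : 0 ≤ K) (m : ℕ) (x : E n) :
    (1 + ‖x‖ ^ 2) * ‖∇ (chi m) x‖ ^ 2 ≤ 24 * K ^ 2 := by
  have hm : (1 : ℝ) ≤ m + 1 := by
    have : (0 : ℝ) ≤ m := Nat.cast_nonneg m
    linarith
  by_cases h : 2 * ((m : ℝ) + 1) ^ 2 < ‖x‖ ^ 2
  · have : (chi m : E n → ℝ) =ᶠ[𝓝 x] fun _ => 0 := by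
      have ho : IsOpen {y : E n | 2 * ((m : ℝ) + 1) ^ 2 < ‖y‖ ^ 2} :=
        isOpen_lt continuous_const (continuous_norm.pow 2)
      filter_upwards [ho.mem_nhds h] with y hy
      exact chi_eq_zero (le_of_lt hy)
    have h2 : ∇ (chi m) x = 0 := by
      unfold gradient
      rw [this.fderiv_eq]
      simp
    rw [h2]; simp; positivity
  · push Not at h
    have hg : ∇ (chi m) x = (deriv Real.smoothTransition (2 - ‖x‖ ^ 2 / ((m : ℝ) + 1) ^ 2) * (-(2 / ((m : ℝ) + 1) ^ 2))) • x := by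
      apply ext_inner_right ℝ
      intro v
      rw [inner_gradient, fderiv_chi, inner_smul_left]
      simp
      ring
    rw [hg, norm_smul, mul_pow, Real.norm_eq_abs, sq_abs, mul_pow]
    have h3 : deriv Real.smoothTransition (2 - ‖x‖ ^ 2 / ((m : ℝ) + 1) ^ 2) ^ 2 ≤ K ^ 2 := by
      have := hK (2 - ‖x‖ ^ 2 / ((m : ℝ) + 1) ^ 2)
      rw [← sq_abs]
      exact pow_le_pow_left₀ (abs_nonneg _) this 2
    set D := deriv Real.smoothTransition (2 - ‖x‖ ^ 2 / ((m : ℝ) + 1) ^ 2) ^ 2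
    set A := ((m : ℝ) + 1) ^ 2 with hA
    have hA1 : 1 ≤ A := by rw [hA]; nlinarith
    have h4 : (-(2 / A)) ^ 2 = 4 / A ^ 2 := by field_simp; norm_num
    rw [h4]
    have h5 : (1 + ‖x‖ ^ 2) * ‖x‖ ^ 2 ≤ 6 * A ^ 2 := by
      have h6 : 1 + ‖x‖ ^ 2 ≤ 3 * A := by linarith
      have h7 : 0 ≤ ‖x‖ ^ 2 := by positivity
      calc (1 + ‖x‖ ^ 2) * ‖x‖ ^ 2 ≤ (3 * A) * (2 * A) := by
            apply mul_le_mul h6 h h7; linarith
        _ = 6 * A ^ 2 := by ring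
    calc (1 + ‖x‖ ^ 2) * (D * (4 / A ^ 2) * ‖x‖ ^ 2) = D * (4 * ((1 + ‖x‖ ^ 2) * ‖x‖ ^ 2) / A ^ 2) := by ring
      _ ≤ K ^ 2 * 24 := by
          apply mul_le_mul h3 _ (by positivity) (by positivity)
          rw [div_le_iff₀ (by positivity)]
          linarith
      _ = 24 * K ^ 2 := by ring

lemma gradient_mul {f g : E n → ℝ} {x : E n} (hf : DifferentiableAt ℝ f x) (hg : DifferentiableAt ℝ g x) :
    ∇ (fun y => f y * g y) x = f x • ∇ g x + g x • ∇ f x := by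
  apply ext_inner_right ℝ
  intro v
  rw [inner_gradient, inner_add_left, inner_smul_left, inner_smul_left, inner_gradient, inner_gradient]
  rw [(hf.hasFDerivAt.fun_mul hg.hasFDerivAt).fderiv]
  simp

lemma gradient_sub_const (f : E n → ℝ) (c : ℝ) (x : E n) : ∇ (fun y => f y - c) x = ∇ f x := by
  unfold gradient
  rw [fderiv_sub_const]

/-- truncated function -/
noncomputable def trunc (w : E n → ℝ) (c : ℕ → ℝ) (m : ℕ) (x : E n) : ℝ := (w x - c m) * chi m x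

lemma trunc_contDiff {w : E n → ℝ} (hw : ContDiff ℝ ∞ w) (c : ℕ → ℝ) (m : ℕ) :
    ContDiff ℝ ∞ (trunc w c m) := by
  unfold trunc
  exact (hw.sub contDiff_const).mul (chi_contDiff m)

lemma trunc_hcs (w : E n → ℝ) (c : ℕ → ℝ) (m : ℕ) : HasCompactSupport (trunc w c m) :=
  (chi_hcs m).mul_left

lemma trunc_energy {α : ℝ} {w : E n → ℝ} (hw : ContDiff ℝ ∞ w)
    (hM : Integrable (fun x : E n => (1 + ‖x‖ ^ 2) ^ (α - 1) * (w x) ^ 2))
    (hE : Integrable (fun x : E n => (1 + ‖x‖ ^ 2) ^ α * ‖∇ w x‖ ^ 2))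
    {c : ℕ → ℝ} (hc : Tendsto c atTop (𝓝 0)) {B : ℝ} (hB : ∀ m, |c m| ≤ B)
    (hint : Integrable (fun x : E n => B ^ 2 * (1 + ‖x‖ ^ 2) ^ (α - 1))) :
    Tendsto (fun m => energy α (trunc w c m)) atTop (𝓝 (energy α w)) := by
  obtain ⟨K, hK0, hK⟩ := exists_bound_deriv_smoothTransition
  have hdw : ∀ x, DifferentiableAt ℝ w x := fun x => hw.differentiable (by simp) x
  have hdc : ∀ m (x : E n), DifferentiableAt ℝ (chi m) x := fun m x =>
    (chi_contDiff m (k := 1)).differentiable one_ne_zero x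
  apply tendsto_integral_of_dominated_convergence
    (fun x => 2 * ((1 + ‖x‖ ^ 2) ^ α * ‖∇ w x‖ ^ 2) + 96 * K ^ 2 * ((1 + ‖x‖ ^ 2) ^ (α - 1) * (w x) ^ 2)
      + 96 * K ^ 2 * (B ^ 2 * (1 + ‖x‖ ^ 2) ^ (α - 1)))
  · intro m
    refine Continuous.aestronglyMeasurable ?_
    have h1 : ContDiff ℝ 1 (trunc w c m) := (trunc_contDiff hw c m).of_le (by simp)
    exact (contDiff_weight (k := 1) α).continuous.mul ((continuous_gradient h1).norm.pow 2)
  · exact ((hE.const_mul _).add (hM.const_mul _)).add (hint.const_mul _)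
  · intro m
    filter_upwards with x
    rw [Real.norm_eq_abs, abs_of_nonneg (mul_nonneg (by positivity) (by positivity))]
    have hg : ∇ (trunc w c m) x = (w x - c m) • ∇ (chi m) x + chi m x • ∇ w x := by
      have := gradient_mul (f := fun y => w y - c m) (g := chi m) (x := x) ((hdw x).sub_const _) (hdc m x)
      unfold trunc
      rw [this, gradient_sub_const]
    rw [hg]
    have h1 : ‖(w x - c m) • ∇ (chi m) x + chi m x • ∇ w x‖ ^ 2 ≤
        2 * ((w x - c m) ^ 2 * ‖∇ (chi m) x‖ ^ 2) + 2 * ‖∇ w x‖ ^ 2 := by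
      have h2 := norm_add_le ((w x - c m) • ∇ (chi m) x) (chi m x • ∇ w x)
      have h3 : ‖(w x - c m) • ∇ (chi m) x‖ ^ 2 = (w x - c m) ^ 2 * ‖∇ (chi m) x‖ ^ 2 := by
        rw [norm_smul, mul_pow, Real.norm_eq_abs, sq_abs]
      have h4 : ‖chi m x • ∇ w x‖ ≤ ‖∇ w x‖ := by
        rw [norm_smul, Real.norm_eq_abs, abs_of_nonneg (chi_nonneg m x)]
        exact mul_le_of_le_one_left (norm_nonneg _) (chi_le_one m x)
      have h5 : 0 ≤ ‖(w x - c m) • ∇ (chi m) x‖ := norm_nonneg _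
      have h6 : 0 ≤ ‖chi m x • ∇ w x‖ := norm_nonneg _
      have h7 : 0 ≤ ‖(w x - c m) • ∇ (chi m) x + chi m x • ∇ w x‖ := norm_nonneg _
      nlinarith [sq_nonneg (‖(w x - c m) • ∇ (chi m) x‖ - ‖chi m x • ∇ w x‖)]
    have h8 := gradient_chi_bound hK hK0 m x
    have h9 : (w x - c m) ^ 2 ≤ 2 * (w x) ^ 2 + 2 * B ^ 2 := by
      have h10 : (c m) ^ 2 ≤ B ^ 2 := by
        rw [← sq_abs]; exact pow_le_pow_left₀ (abs_nonneg _) (hB m) 2
      nlinarith [sq_nonneg (w x + c m)]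
    have hP : 0 < (1 + ‖x‖ ^ 2) ^ (α - 1) := Real.rpow_pos_of_pos (one_add_pos x) _
    have hQ : 0 < (1 + ‖x‖ ^ 2) ^ α := Real.rpow_pos_of_pos (one_add_pos x) _
    calc (1 + ‖x‖ ^ 2) ^ α * ‖(w x - c m) • ∇ (chi m) x + chi m x • ∇ w x‖ ^ 2
        ≤ (1 + ‖x‖ ^ 2) ^ α * (2 * ((w x - c m) ^ 2 * ‖∇ (chi m) x‖ ^ 2) + 2 * ‖∇ w x‖ ^ 2) := by
          apply mul_le_mul_of_nonneg_left h1 hQ.le
      _ = 2 * ((1 + ‖x‖ ^ 2) ^ α * ‖∇ w x‖ ^ 2) + 2 * (1 + ‖x‖ ^ 2) ^ (α - 1) * ((w x - c m) ^ 2 * ((1 + ‖x‖ ^ 2) * ‖∇ (chi m) x‖ ^ 2)) := by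
          rw [rpow_sub_one' x α]; ring
      _ ≤ 2 * ((1 + ‖x‖ ^ 2) ^ α * ‖∇ w x‖ ^ 2) + 2 * (1 + ‖x‖ ^ 2) ^ (α - 1) * ((2 * (w x) ^ 2 + 2 * B ^ 2) * (24 * K ^ 2)) := by
          gcongr
      _ = _ := by ring
  · filter_upwards with x
    apply tendsto_const_nhds.congr'
    filter_upwards [chi_eventually x] with m hm
    have : ∇ (trunc w c m) x = ∇ w x := by
      have h1 : trunc w c m =ᶠ[𝓝 x] fun y => w y - c m := by
        filter_upwards [hm] with y hy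
        unfold trunc
        rw [hy]; simp
      unfold gradient
      rw [h1.fderiv_eq, fderiv_sub_const]
    rw [this]

lemma trunc_mass {α : ℝ} {w : E n → ℝ} (hw : ContDiff ℝ ∞ w)
    (hM : Integrable (fun x : E n => (1 + ‖x‖ ^ 2) ^ (α - 1) * (w x) ^ 2))
    {c : ℕ → ℝ} (hc : Tendsto c atTop (𝓝 0)) {B : ℝ} (hB : ∀ m, |c m| ≤ B)
    (hint : Integrable (fun x : E n => B ^ 2 * (1 + ‖x‖ ^ 2) ^ (α - 1))) :
    Tendsto (fun m => mass α (trunc w c m)) atTop (𝓝 (mass α w)) := by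
  apply tendsto_integral_of_dominated_convergence
    (fun x => 2 * ((1 + ‖x‖ ^ 2) ^ (α - 1) * (w x) ^ 2) + 2 * (B ^ 2 * (1 + ‖x‖ ^ 2) ^ (α - 1)))
  · intro m
    refine Continuous.aestronglyMeasurable ?_
    exact (contDiff_weight (k := 1) (α - 1)).continuous.mul ((trunc_contDiff hw c m).continuous.pow 2)
  · exact (hM.const_mul _).add (hint.const_mul _)
  · intro m
    filter_upwards with x
    rw [Real.norm_eq_abs, abs_of_nonneg (mul_nonneg (by positivity) (by positivity))]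
    have h9 : (trunc w c m x) ^ 2 ≤ 2 * (w x) ^ 2 + 2 * B ^ 2 := by
      have h10 : (c m) ^ 2 ≤ B ^ 2 := by
        rw [← sq_abs]; exact pow_le_pow_left₀ (abs_nonneg _) (hB m) 2
      unfold trunc
      have h11 : chi m x ^ 2 ≤ 1 := by
        have := chi_le_one m x
        have := chi_nonneg m x
        nlinarith
      rw [mul_pow]
      have h12 : (w x - c m) ^ 2 ≤ 2 * (w x) ^ 2 + 2 * B ^ 2 := by nlinarith [sq_nonneg (w x + c m)]
      have h13 : 0 ≤ (w x - c m) ^ 2 := sq_nonneg _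
      nlinarith
    have hP : 0 < (1 + ‖x‖ ^ 2) ^ (α - 1) := Real.rpow_pos_of_pos (one_add_pos x) _
    calc (1 + ‖x‖ ^ 2) ^ (α - 1) * (trunc w c m x) ^ 2 ≤ (1 + ‖x‖ ^ 2) ^ (α - 1) * (2 * (w x) ^ 2 + 2 * B ^ 2) := by
          apply mul_le_mul_of_nonneg_left h9 hP.le
      _ = _ := by ring
  · filter_upwards with x
    have h1 : Tendsto (fun m => (1 + ‖x‖ ^ 2) ^ (α - 1) * (w x - c m) ^ 2) atTop (𝓝 ((1 + ‖x‖ ^ 2) ^ (α - 1) * (w x - 0) ^ 2)) :=
      tendsto_const_nhds.mul ((tendsto_const_nhds.sub hc).pow 2)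
    rw [sub_zero] at h1
    apply h1.congr'
    filter_upwards [chi_eventually x] with m hm
    have : chi m x = 1 := hm.self_of_nhds
    unfold trunc
    rw [this]; simp

lemma mass_ne_zero_imp {α : ℝ} {u : E n → ℝ} (h : mass α u ≠ 0) : u ≠ 0 := by
  rintro rfl
  apply h
  simp [mass]

lemma mass_pos {α : ℝ} {u : E n → ℝ} (hu : ContDiff ℝ ∞ u) (hc : HasCompactSupport u) (h0 : u ≠ 0) :
    0 < mass α u := by
  obtain ⟨x, hx⟩ := Function.ne_iff.mp h0
  have hw := (contDiff_weight (n := n) (k := 1) (α - 1)).continuous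
  unfold mass
  apply Continuous.integral_pos_of_hasCompactSupport_nonneg_nonzero (x := x)
  · exact hw.mul (hu.continuous.pow 2)
  · exact (hcs_sq hc).mul_left
  · intro y; exact mul_nonneg (Real.rpow_nonneg (one_add_pos y).le _) (sq_nonneg _)
  · have h1 := Real.rpow_pos_of_pos (one_add_pos x) (α - 1)
    have h2 : u x ^ 2 ≠ 0 := pow_ne_zero 2 hx
    exact mul_ne_zero h1.ne' h2

/-- approximation without constraint -/
lemma approx_free {α : ℝ} {w : E n → ℝ} (hw : ContDiff ℝ ∞ w)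
    (hM : Integrable (fun x : E n => (1 + ‖x‖ ^ 2) ^ (α - 1) * (w x) ^ 2))
    (hE : Integrable (fun x : E n => (1 + ‖x‖ ^ 2) ^ α * ‖∇ w x‖ ^ 2))
    (hpos : 0 < mass α w) {b : ℝ} (hb : energy α w / mass α w < b) :
    ∃ u : E n → ℝ, ContDiff ℝ ∞ u ∧ HasCompactSupport u ∧ u ≠ 0 ∧ energy α u / mass α u < b := by
  have h1 := trunc_energy hw hM hE (c := fun _ => 0) tendsto_const_nhds (B := 0) (by simp) (by simp)
  have h2 := trunc_mass hw hM (c := fun _ => 0) tendsto_const_nhds (B := 0) (by simp) (by simp)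
  have h3 := h1.div h2 hpos.ne'
  have h4 := (h3.eventually_lt_const hb).and (h2.eventually_const_lt hpos)
  obtain ⟨m, hm1, hm2⟩ := h4.exists
  exact ⟨_, trunc_contDiff hw _ m, trunc_hcs w _ m, mass_ne_zero_imp hm2.ne', hm1⟩

lemma tendsto_integral_chi {f : E n → ℝ} (hf : Integrable f) :
    Tendsto (fun m => ∫ x, f x * chi m x) atTop (𝓝 (∫ x, f x)) := by
  apply tendsto_integral_of_dominated_convergence (fun x => ‖f x‖)
  · intro m
    exact hf.aestronglyMeasurable.mul (chi_contDiff m (k := 1)).continuous.aestronglyMeasurable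
  · exact hf.norm
  · intro m
    filter_upwards with x
    rw [norm_mul, Real.norm_eq_abs (chi m x), abs_of_nonneg (chi_nonneg m x)]
    exact mul_le_of_le_one_right (norm_nonneg _) (chi_le_one m x)
  · filter_upwards with x
    apply tendsto_const_nhds.congr'
    filter_upwards [chi_eventually x] with m hm
    rw [hm.self_of_nhds]; simp

lemma integrable_weight_mul {α : ℝ} {w : E n → ℝ} (hw : Continuous w)
    (h1 : Integrable (fun x : E n => (1 + ‖x‖ ^ 2) ^ (α - 1)))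
    (hM : Integrable (fun x : E n => (1 + ‖x‖ ^ 2) ^ (α - 1) * (w x) ^ 2)) :
    Integrable (fun x : E n => (1 + ‖x‖ ^ 2) ^ (α - 1) * w x) := by
  refine (h1.add hM).mono' ((contDiff_weight (k := 1) (α - 1)).continuous.mul hw).aestronglyMeasurable ?_
  filter_upwards with x
  have hP : 0 < (1 + ‖x‖ ^ 2) ^ (α - 1) := Real.rpow_pos_of_pos (one_add_pos x) _
  rw [norm_mul, Real.norm_eq_abs, abs_of_pos hP, Real.norm_eq_abs]
  have : |w x| ≤ 1 + w x ^ 2 := by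
    rw [← sq_abs]; nlinarith [abs_nonneg (w x), sq_nonneg (|w x| - 1)]
  calc (1 + ‖x‖ ^ 2) ^ (α - 1) * |w x| ≤ (1 + ‖x‖ ^ 2) ^ (α - 1) * (1 + w x ^ 2) := mul_le_mul_of_nonneg_left this hP.le
    _ = _ := by simp only [Pi.add_apply]; ring

/-- approximation with zero weighted mean -/
lemma approx_mean {α : ℝ} {w : E n → ℝ} (hw : ContDiff ℝ ∞ w)
    (hJ : Integrable (fun x : E n => (1 + ‖x‖ ^ 2) ^ (α - 1)))
    (hM : Integrable (fun x : E n => (1 + ‖x‖ ^ 2) ^ (α - 1) * (w x) ^ 2))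
    (hE : Integrable (fun x : E n => (1 + ‖x‖ ^ 2) ^ α * ‖∇ w x‖ ^ 2))
    (hmean : ∫ x : E n, (1 + ‖x‖ ^ 2) ^ (α - 1) * w x = 0)
    (hpos : 0 < mass α w) {b : ℝ} (hb : energy α w / mass α w < b) :
    ∃ u : E n → ℝ, ContDiff ℝ ∞ u ∧ HasCompactSupport u ∧ u ≠ 0 ∧
      (∫ x : E n, (1 + ‖x‖ ^ 2) ^ (α - 1) * u x = 0) ∧ energy α u / mass α u < b := by
  have hwt := fun γ => (contDiff_weight (n := n) (k := 1) γ).continuous
  have hJw := integrable_weight_mul hw.continuous hJ hM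
  set Nn : ℕ → ℝ := fun m => ∫ x : E n, ((1 + ‖x‖ ^ 2) ^ (α - 1) * w x) * chi m x
  set Dn : ℕ → ℝ := fun m => ∫ x : E n, (1 + ‖x‖ ^ 2) ^ (α - 1) * chi m x
  have hN : Tendsto Nn atTop (𝓝 0) := by
    have := tendsto_integral_chi hJw
    rwa [hmean] at this
  have hD : Tendsto Dn atTop (𝓝 (∫ x : E n, (1 + ‖x‖ ^ 2) ^ (α - 1))) := tendsto_integral_chi hJ
  have hJpos : 0 < ∫ x : E n, (1 + ‖x‖ ^ 2) ^ (α - 1) := by
    apply integral_pos_of_integrable_nonneg_nonzero (x := 0) (hwt _) hJ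
    · intro y; exact Real.rpow_nonneg (one_add_pos y).le _
    · exact (Real.rpow_pos_of_pos (one_add_pos _) _).ne'
  have hDpos : ∀ m, 0 < Dn m := by
    intro m
    apply Continuous.integral_pos_of_hasCompactSupport_nonneg_nonzero (x := 0)
    · exact (hwt _).mul (chi_contDiff m (k := 1)).continuous
    · exact (chi_hcs m).mul_left
    · intro y; exact mul_nonneg (Real.rpow_nonneg (one_add_pos y).le _) (chi_nonneg m y)
    · rw [chi_eq_one (by simp; positivity)]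
      simp
  set c : ℕ → ℝ := fun m => Nn m / Dn m
  have hc : Tendsto c atTop (𝓝 0) := by
    have h := hN.div hD hJpos.ne'
    rw [zero_div] at h
    exact h
  obtain ⟨B, hB⟩ : ∃ B, ∀ m, |c m| ≤ B := by
    obtain ⟨B, hB⟩ := (hc.norm.bddAbove_range)
    exact ⟨B, fun m => hB ⟨m, rfl⟩⟩
  have h1 := trunc_energy hw hM hE hc hB (hJ.const_mul _)
  have h2 := trunc_mass hw hM hc hB (hJ.const_mul _)
  have h3 := h1.div h2 hpos.ne'
  have h4 := (h3.eventually_lt_const hb).and (h2.eventually_const_lt hpos)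
  obtain ⟨m, hm1, hm2⟩ := h4.exists
  refine ⟨_, trunc_contDiff hw _ m, trunc_hcs w _ m, mass_ne_zero_imp hm2.ne', ?_, hm1⟩
  have hi1 : Integrable (fun x : E n => ((1 + ‖x‖ ^ 2) ^ (α - 1) * w x) * chi m x) :=
    (((hwt _).mul hw.continuous).mul (chi_contDiff m (k := 1)).continuous).integrable_of_hasCompactSupport (chi_hcs m).mul_left
  have hi2 : Integrable (fun x : E n => (1 + ‖x‖ ^ 2) ^ (α - 1) * chi m x) :=
    ((hwt _).mul (chi_contDiff m (k := 1)).continuous).integrable_of_hasCompactSupport (chi_hcs m).mul_left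
  have : ∫ x : E n, (1 + ‖x‖ ^ 2) ^ (α - 1) * trunc w c m x = Nn m - c m * Dn m := by
    simp only [Nn, Dn]
    rw [← integral_const_mul, ← integral_sub hi1 (hi2.const_mul _)]
    apply integral_congr_ae
    filter_upwards with x
    unfold trunc
    ring
  rw [this]
  simp only [c]
  rw [div_mul_cancel₀ _ (hDpos m).ne']
  ring

lemma integrable_weight {γ : ℝ} (h : γ < -(n : ℝ) / 2) : Integrable (fun x : E n => (1 + ‖x‖ ^ 2) ^ γ) := by
  have := integrable_rpow_neg_one_add_norm_sq (E := E n) (μ := volume) (r := -2 * γ) (by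
    rw [finrank_euclideanSpace_fin]; linarith)
  convert this using 2
  congr 1
  ring

noncomputable def J (n : ℕ) (γ : ℝ) : ℝ := ∫ x : E n, (1 + ‖x‖ ^ 2) ^ γ

lemma J_pos {γ : ℝ} (h : γ < -(n : ℝ) / 2) : 0 < J n γ := by
  unfold J
  apply integral_pos_of_integrable_nonneg_nonzero (x := 0) (contDiff_weight (k := 1) _).continuous (integrable_weight h)
  · intro y; exact Real.rpow_nonneg (one_add_pos y).le _
  · exact (Real.rpow_pos_of_pos (one_add_pos _) _).ne'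

lemma weight_le {a b : ℝ} (h : a ≤ b) (x : E n) : (1 + ‖x‖ ^ 2) ^ a ≤ (1 + ‖x‖ ^ 2) ^ b := by
  apply Real.rpow_le_rpow_of_exponent_le _ h
  nlinarith [sq_nonneg ‖x‖]

lemma norm_sq_weight (γ : ℝ) (x : E n) : ‖x‖ ^ 2 * (1 + ‖x‖ ^ 2) ^ (γ - 1) = (1 + ‖x‖ ^ 2) ^ γ - (1 + ‖x‖ ^ 2) ^ (γ - 1) := by
  rw [rpow_sub_one' x γ]; ring

/-- the recursion J -/
lemma J_rec {γ : ℝ} (h : γ < -(n : ℝ) / 2) : ((n : ℝ) + 2 * γ) * J n γ = 2 * γ * J n (γ - 1) := by
  obtain ⟨K, hK0, hK⟩ := exists_bound_deriv_smoothTransition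
  have hi := integrable_weight h
  have hi1 : Integrable (fun x : E n => (1 + ‖x‖ ^ 2) ^ (γ - 1)) := integrable_weight (by linarith)
  have hwt := fun γ => (contDiff_weight (n := n) (k := 1) γ).continuous
  have hF : Integrable (fun x : E n => (n * (1 + ‖x‖ ^ 2) ^ γ + 2 * γ * ‖x‖ ^ 2 * (1 + ‖x‖ ^ 2) ^ (γ - 1))) := by
    have : (fun x : E n => (n * (1 + ‖x‖ ^ 2) ^ γ + 2 * γ * ‖x‖ ^ 2 * (1 + ‖x‖ ^ 2) ^ (γ - 1)))
        = fun x : E n => ((n : ℝ) + 2 * γ) * (1 + ‖x‖ ^ 2) ^ γ - 2 * γ * (1 + ‖x‖ ^ 2) ^ (γ - 1) := by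
      funext x
      rw [mul_assoc (2 * γ), norm_sq_weight]; ring
    rw [this]
    exact (hi.const_mul _).sub (hi1.const_mul _)
  have h1 := fun m => ibp_euler (n := n) γ (chi m) (chi_contDiff m (k := 1)) (chi_hcs m)
  have hR : Tendsto (fun m : ℕ => ∫ x : E n, (n * (1 + ‖x‖ ^ 2) ^ γ + 2 * γ * ‖x‖ ^ 2 * (1 + ‖x‖ ^ 2) ^ (γ - 1)) * chi m x) atTop
      (𝓝 (∫ x : E n, (n * (1 + ‖x‖ ^ 2) ^ γ + 2 * γ * ‖x‖ ^ 2 * (1 + ‖x‖ ^ 2) ^ (γ - 1)))) := tendsto_integral_chi hF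
  have hL : Tendsto (fun m : ℕ => ∫ x : E n, (1 + ‖x‖ ^ 2) ^ γ * fderiv ℝ (chi m) x x) atTop (𝓝 (∫ x : E n, (0 : ℝ))) := by
    apply tendsto_integral_of_dominated_convergence (fun x => (24 * K ^ 2 + 1) * (1 + ‖x‖ ^ 2) ^ γ)
    · intro m
      refine Continuous.aestronglyMeasurable ?_
      exact (hwt γ).mul (((chi_contDiff m (k := 1)).continuous_fderiv one_ne_zero).clm_apply continuous_id)
    · exact hi.const_mul _
    · intro m
      filter_upwards with x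
      have hP : 0 < (1 + ‖x‖ ^ 2) ^ γ := Real.rpow_pos_of_pos (one_add_pos x) _
      rw [norm_mul, Real.norm_eq_abs, abs_of_pos hP, Real.norm_eq_abs, mul_comm]
      apply mul_le_mul_of_nonneg_right _ hP.le
      have h2 := gradient_chi_bound hK hK0 m x
      have h3 : |fderiv ℝ (chi m) x x| ≤ ‖∇ (chi m) x‖ * ‖x‖ := by
        rw [← inner_gradient]; exact abs_real_inner_le_norm _ _
      have h4 : ‖∇ (chi m) x‖ * ‖x‖ ≤ (1 + ‖x‖ ^ 2) * ‖∇ (chi m) x‖ ^ 2 + 1 := by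
        nlinarith [norm_nonneg x, norm_nonneg (∇ (chi m) x), sq_nonneg (‖∇ (chi m) x‖ * ‖x‖ - 1), sq_nonneg (‖∇ (chi m) x‖)]
      linarith
    · filter_upwards with x
      apply tendsto_const_nhds.congr'
      filter_upwards [chi_eventually x] with m hm
      rw [hm.fderiv_eq]; simp
  have h2 : Tendsto (fun m : ℕ => ∫ x : E n, (1 + ‖x‖ ^ 2) ^ γ * fderiv ℝ (chi m) x x) atTop
      (𝓝 (-(∫ x : E n, (n * (1 + ‖x‖ ^ 2) ^ γ + 2 * γ * ‖x‖ ^ 2 * (1 + ‖x‖ ^ 2) ^ (γ - 1))))) := by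
    simp_rw [h1]
    exact hR.neg
  have h3 := tendsto_nhds_unique hL h2
  simp only [integral_zero] at h3
  have h4 : ∫ x : E n, (n * (1 + ‖x‖ ^ 2) ^ γ + 2 * γ * ‖x‖ ^ 2 * (1 + ‖x‖ ^ 2) ^ (γ - 1)) = ((n : ℝ) + 2 * γ) * J n γ - 2 * γ * J n (γ - 1) := by
    unfold J
    rw [← integral_const_mul, ← integral_const_mul, ← integral_sub (hi.const_mul _) (hi1.const_mul _)]
    apply integral_congr_ae
    filter_upwards with x
    rw [mul_assoc (2 * γ), norm_sq_weight]; ring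
  rw [h4] at h3
  linarith

lemma gradient_weight (γ : ℝ) (x : E n) :
    ∇ (fun x : E n => (1 + ‖x‖ ^ 2) ^ γ) x = (2 * γ * (1 + ‖x‖ ^ 2) ^ (γ - 1)) • x := by
  apply ext_inner_right ℝ
  intro v
  rw [inner_gradient, fderiv_weight, inner_smul_left]
  simp

lemma weight_sq (γ : ℝ) (x : E n) : ((1 + ‖x‖ ^ 2) ^ γ) ^ 2 = (1 + ‖x‖ ^ 2) ^ (2 * γ) := by
  rw [two_mul, Real.rpow_add (one_add_pos x)]; ring

lemma weight_mul (γ δ : ℝ) (x : E n) : (1 + ‖x‖ ^ 2) ^ γ * (1 + ‖x‖ ^ 2) ^ δ = (1 + ‖x‖ ^ 2) ^ (γ + δ) := by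
  rw [Real.rpow_add (one_add_pos x)]

lemma pow_grad_term (α γ c : ℝ) (x : E n) :
    (1 + ‖x‖ ^ 2) ^ α * ‖∇ (fun x : E n => (1 + ‖x‖ ^ 2) ^ γ - c) x‖ ^ 2 =
      4 * γ ^ 2 * ((1 + ‖x‖ ^ 2) ^ (α - 1 + 2 * γ) - (1 + ‖x‖ ^ 2) ^ (α - 2 + 2 * γ)) := by
  rw [gradient_sub_const, gradient_weight, norm_smul, mul_pow, Real.norm_eq_abs, sq_abs, mul_pow, mul_pow, weight_sq]
  have h1 : (1 + ‖x‖ ^ 2) ^ α * (1 + ‖x‖ ^ 2) ^ (2 * (γ - 1)) = (1 + ‖x‖ ^ 2) ^ (α - 1 + 2 * γ - 1) := by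
    rw [weight_mul]; congr 1; ring
  have h2 := norm_sq_weight (n := n) (α - 1 + 2 * γ) x
  have h3 : α - 2 + 2 * γ = α - 1 + 2 * γ - 1 := by ring
  rw [h3, ← h2, ← h1]
  ring

lemma pow_energy_integrable {α γ : ℝ} (c : ℝ) (h : α - 1 + 2 * γ < -(n : ℝ) / 2) :
    Integrable (fun x : E n => (1 + ‖x‖ ^ 2) ^ α * ‖∇ (fun x : E n => (1 + ‖x‖ ^ 2) ^ γ - c) x‖ ^ 2) := by
  simp_rw [pow_grad_term]
  exact ((integrable_weight h).sub (integrable_weight (by linarith))).const_mul _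

lemma pow_energy {α γ : ℝ} (c : ℝ) (h : α - 1 + 2 * γ < -(n : ℝ) / 2) :
    energy α (fun x : E n => (1 + ‖x‖ ^ 2) ^ γ - c) = 4 * γ ^ 2 * (J n (α - 1 + 2 * γ) - J n (α - 2 + 2 * γ)) := by
  unfold energy J
  simp_rw [pow_grad_term]
  rw [integral_const_mul, integral_sub (integrable_weight h) (integrable_weight (by linarith))]

lemma pow_mass_term (α γ : ℝ) (x : E n) :
    (1 + ‖x‖ ^ 2) ^ (α - 1) * ((1 + ‖x‖ ^ 2) ^ γ) ^ 2 = (1 + ‖x‖ ^ 2) ^ (α - 1 + 2 * γ) := by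
  rw [weight_sq, weight_mul]

/-- existence of near-optimal functions, large weight at infinity -/
lemma exists_near_hardy {α : ℝ} (hk : 0 < (n : ℝ) + 2 * α - 2) {b : ℝ} (hb : ((n : ℝ) + 2 * α - 2) ^ 2 / 4 < b) :
    ∃ u : E n → ℝ, ContDiff ℝ ∞ u ∧ HasCompactSupport u ∧ u ≠ 0 ∧ energy α u / mass α u < b := by
  set κ : ℝ := (n : ℝ) + 2 * α - 2 with hκ
  have hb0 : 0 < b := lt_of_le_of_lt (by positivity) hb
  have hsq : κ / 2 < Real.sqrt b := by
    rw [Real.lt_sqrt (by positivity)]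
    calc (κ / 2) ^ 2 = κ ^ 2 / 4 := by ring
      _ < b := hb
  obtain ⟨t, ht1, ht2⟩ := exists_between hsq
  -- γ = - t / 2
  have h : α - 1 + 2 * (-t / 2) < -(n : ℝ) / 2 := by
    have : κ / 2 < t := ht1
    rw [hκ] at this
    linarith
  have hM : Integrable (fun x : E n => (1 + ‖x‖ ^ 2) ^ (α - 1) * ((1 + ‖x‖ ^ 2) ^ (-t / 2) - 0) ^ 2) := by
    simp_rw [sub_zero, pow_mass_term]
    exact integrable_weight h
  have hmass : mass α (fun x : E n => (1 + ‖x‖ ^ 2) ^ (-t / 2) - 0) = J n (α - 1 + 2 * (-t / 2)) := by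
    unfold mass J
    simp_rw [sub_zero, pow_mass_term]
  have hJ1 := J_pos (n := n) h
  have hJ2 : 0 < J n (α - 2 + 2 * (-t / 2)) := J_pos (by linarith)
  apply approx_free (w := fun x : E n => (1 + ‖x‖ ^ 2) ^ (-t / 2) - 0)
    ((contDiff_weight _).sub contDiff_const) hM (pow_energy_integrable 0 h)
  · rw [hmass]; exact hJ1
  · rw [pow_energy 0 h, hmass, div_lt_iff₀ hJ1]
    have h5 : t ^ 2 < b := by
      have ht0 : 0 < t := lt_trans (by positivity) ht1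
      calc t ^ 2 < (Real.sqrt b) ^ 2 := by
            apply pow_lt_pow_left₀ ht2 ht0.le (by norm_num)
        _ = b := Real.sq_sqrt hb0.le
    have h6 : 4 * (-t / 2) ^ 2 = t ^ 2 := by ring
    rw [h6]
    calc t ^ 2 * (J n (α - 1 + 2 * (-t / 2)) - J n (α - 2 + 2 * (-t / 2))) ≤ t ^ 2 * J n (α - 1 + 2 * (-t / 2)) := by
          apply mul_le_mul_of_nonneg_left _ (sq_nonneg _)
          linarith
      _ < b * J n (α - 1 + 2 * (-t / 2)) := by
          apply mul_lt_mul_of_pos_right h5 hJ1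

lemma exists_near_ground {α : ℝ} (hα : 1 < α) (h2 : ((n : ℝ) + 2) / 2 < α) {b : ℝ} (hb : 2 * n * (α - 1) < b) :
    ∃ u : E n → ℝ, ContDiff ℝ ∞ u ∧ HasCompactSupport u ∧ u ≠ 0 ∧ energy α u / mass α u < b := by
  have h : α - 1 + 2 * (1 - α) < -(n : ℝ) / 2 := by linarith
  have hM : Integrable (fun x : E n => (1 + ‖x‖ ^ 2) ^ (α - 1) * ((1 + ‖x‖ ^ 2) ^ (1 - α) - 0) ^ 2) := by
    simp_rw [sub_zero, pow_mass_term]
    exact integrable_weight h
  have hmass : mass α (fun x : E n => (1 + ‖x‖ ^ 2) ^ (1 - α) - 0) = J n (α - 1 + 2 * (1 - α)) := by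
    unfold mass J
    simp_rw [sub_zero, pow_mass_term]
  have hJ1 := J_pos (n := n) h
  have hrec := J_rec (n := n) h
  apply approx_free (w := fun x : E n => (1 + ‖x‖ ^ 2) ^ (1 - α) - 0)
    ((contDiff_weight _).sub contDiff_const) hM (pow_energy_integrable 0 h)
  · rw [hmass]; exact hJ1
  · rw [pow_energy 0 h, hmass, div_lt_iff₀ hJ1]
    have h3 : α - 2 + 2 * (1 - α) = α - 1 + 2 * (1 - α) - 1 := by ring
    rw [h3]
    have h4 : 4 * (1 - α) ^ 2 * (J n (α - 1 + 2 * (1 - α)) - J n (α - 1 + 2 * (1 - α) - 1)) =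
        2 * n * (α - 1) * J n (α - 1 + 2 * (1 - α)) := by
      have h5 : 2 * (1 - α) * J n (α - 1 + 2 * (1 - α) - 1) = ((n : ℝ) + 2 * (1 - α)) * J n (α - 1 + 2 * (1 - α)) := by
        have h6 : α - 1 + 2 * (1 - α) = 1 - α := by ring
        rw [h6] at hrec ⊢
        linarith
      linear_combination (-2 * (1 - α)) * h5
    rw [h4]
    exact mul_lt_mul_of_pos_right hb hJ1

lemma lower_hardy {α : ℝ} (hα : 1 < α) (h2 : α ≤ ((n : ℝ) + 2) / 2) (u : E n → ℝ) (hu : ContDiff ℝ ∞ u) (hc : HasCompactSupport u) :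
    ((n : ℝ) + 2 * α - 2) ^ 2 / 4 * mass α u ≤ energy α u := by
  have hu1 : ContDiff ℝ 1 u := hu.of_le (by simp)
  have hwt := fun γ => (contDiff_weight (n := n) (k := 1) γ).continuous
  set β : ℝ := ((n : ℝ) + 2 * α - 2) / 4 with hβ
  rw [identityA α β u hu1 hc]
  have h3 : 0 ≤ ∫ x, (1 + ‖x‖ ^ 2) ^ α * ‖∇ u x + (2 * β * u x / (1 + ‖x‖ ^ 2)) • x‖ ^ 2 := by
    apply integral_nonneg
    intro x
    exact mul_nonneg (Real.rpow_nonneg (one_add_pos x).le _) (sq_nonneg _)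
  have h4 : ((n : ℝ) + 2 * α - 2) ^ 2 / 4 * mass α u ≤
      ∫ x, (1 + ‖x‖ ^ 2) ^ (α - 1) * (2 * β * n + 4 * β * (α - 1 - β) * (‖x‖ ^ 2 / (1 + ‖x‖ ^ 2))) * (u x) ^ 2 := by
    unfold mass
    rw [← integral_const_mul]
    apply integral_mono_ae
    · refine Integrable.const_mul ?_ _
      exact ((hwt _).mul (hu.continuous.pow 2)).integrable_of_hasCompactSupport (hcs_sq hc).mul_left
    · refine Continuous.integrable_of_hasCompactSupport ?_ (hcs_sq hc).mul_left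
      refine Continuous.mul ((hwt _).mul (continuous_const.add (continuous_const.mul ?_))) (hu.continuous.pow 2)
      exact (continuous_norm.pow 2).div (continuous_const.add (continuous_norm.pow 2)) (fun x => (one_add_pos x).ne')
    · filter_upwards with x
      have hP : 0 < (1 + ‖x‖ ^ 2) ^ (α - 1) := Real.rpow_pos_of_pos (one_add_pos x) _
      have hu2 : 0 ≤ u x ^ 2 := sq_nonneg _
      have hx := one_add_pos x
      have h5 : ((n : ℝ) + 2 * α - 2) ^ 2 / 4 ≤ 2 * β * n + 4 * β * (α - 1 - β) * (‖x‖ ^ 2 / (1 + ‖x‖ ^ 2)) := by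
        have h6 : ‖x‖ ^ 2 / (1 + ‖x‖ ^ 2) = 1 - 1 / (1 + ‖x‖ ^ 2) := by field_simp; ring
        rw [h6]
        have h7 : 0 ≤ 1 / (1 + ‖x‖ ^ 2) := by positivity
        have h8 : 0 ≤ β := by rw [hβ]; have : (0:ℝ) ≤ n := Nat.cast_nonneg n; linarith
        have h9 : 0 ≤ -(4 * β * (α - 1 - β)) := by
          have : α - 1 - β ≤ 0 := by rw [hβ]; linarith
          nlinarith
        have h10 : 2 * β * n + 4 * β * (α - 1 - β) = ((n : ℝ) + 2 * α - 2) ^ 2 / 4 := by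
          rw [hβ]; ring
        nlinarith [mul_nonneg h9 h7]
      calc ((n : ℝ) + 2 * α - 2) ^ 2 / 4 * ((1 + ‖x‖ ^ 2) ^ (α - 1) * u x ^ 2)
          = (1 + ‖x‖ ^ 2) ^ (α - 1) * (((n : ℝ) + 2 * α - 2) ^ 2 / 4) * u x ^ 2 := by ring
        _ ≤ _ := by
          apply mul_le_mul_of_nonneg_right _ hu2
          exact mul_le_mul_of_nonneg_left h5 hP.le
  linarith

lemma lower_ground {α : ℝ} (u : E n → ℝ) (hu : ContDiff ℝ ∞ u) (hc : HasCompactSupport u) :
    2 * n * (α - 1) * mass α u ≤ energy α u := by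
  have hu1 : ContDiff ℝ 1 u := hu.of_le (by simp)
  rw [identityA α (α - 1) u hu1 hc]
  have h3 : 0 ≤ ∫ x, (1 + ‖x‖ ^ 2) ^ α * ‖∇ u x + (2 * (α - 1) * u x / (1 + ‖x‖ ^ 2)) • x‖ ^ 2 := by
    apply integral_nonneg
    intro x
    exact mul_nonneg (Real.rpow_nonneg (one_add_pos x).le _) (sq_nonneg _)
  have h4 : 2 * n * (α - 1) * mass α u =
      ∫ x, (1 + ‖x‖ ^ 2) ^ (α - 1) * (2 * (α - 1) * n + 4 * (α - 1) * (α - 1 - (α - 1)) * (‖x‖ ^ 2 / (1 + ‖x‖ ^ 2))) * (u x) ^ 2 := by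
    unfold mass
    rw [← integral_const_mul]
    apply integral_congr_ae
    filter_upwards with x
    ring
  linarith

/-- The admissible class of the problem: nonzero real test functions, smooth with compact
support, with zero weighted mean when the exponent lies below `-(n-2)/2`. -/
def Admissible (n : ℕ) (α : ℝ) (u : EuclideanSpace ℝ (Fin n) → ℝ) : Prop :=
  ContDiff ℝ ∞ u ∧ HasCompactSupport u ∧ u ≠ 0 ∧
    (α < -((n : ℝ) - 2) / 2 → ∫ x, (1 + ‖x‖ ^ 2) ^ (α - 1) * u x = 0)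

/-- The best constant of the weighted Hardy inequality: the infimum of the Rayleigh quotients. -/
noncomputable def bestConst (n : ℕ) (α : ℝ) : ℝ :=
  sInf {q : ℝ | ∃ u : EuclideanSpace ℝ (Fin n) → ℝ, Admissible n α u ∧
    q = (∫ x, (1 + ‖x‖ ^ 2) ^ α * ‖∇ u x‖ ^ 2) / ∫ x, (1 + ‖x‖ ^ 2) ^ (α - 1) * (u x) ^ 2}

lemma bestConst_eq {n : ℕ} {α l : ℝ}
    (h1 : ∀ u : E n → ℝ, Admissible n α u → l * mass α u ≤ energy α u)
    (h2 : ∀ b, l < b → ∃ u : E n → ℝ, Admissible n α u ∧ energy α u / mass α u < b) :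
    bestConst n α = l := by
  unfold bestConst
  apply csInf_eq_of_forall_ge_of_forall_gt_exists_lt
  · obtain ⟨u, hu, _⟩ := h2 (l + 1) (by linarith)
    exact ⟨_, u, hu, rfl⟩
  · rintro q ⟨u, hu, rfl⟩
    have hm := mass_pos (α := α) hu.1 hu.2.1 hu.2.2.1
    have := h1 u hu
    exact (le_div_iff₀ hm).mpr this
  · intro b hb
    obtain ⟨u, hu, hlt⟩ := h2 b hb
    exact ⟨_, ⟨u, hu, rfl⟩, hlt⟩

/-- For every dimension `n ≥ 3` and every exponent `α > 1` the best constant is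
`(n+2α-2)²/4` when `α ≤ (n+2)/2` and `2n(α-1)` when `α > (n+2)/2`. -/
theorem result : ∀ n : ℕ, 3 ≤ n → ∀ α : ℝ, 1 < α →
    bestConst n α =
      if α ≤ ((n : ℝ) + 2) / 2 then ((n : ℝ) + 2 * α - 2) ^ 2 / 4 else 2 * (n : ℝ) * (α - 1) := by
  intro n hn α hα
  have hn' : (3 : ℝ) ≤ n := by exact_mod_cast hn
  have hno : ¬ (α < -((n : ℝ) - 2) / 2) := by
    intro h; linarith
  split_ifs with h
  · apply bestConst_eq
    · intro u hu
      exact lower_hardy hα h u hu.1 hu.2.1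
    · intro b hb
      obtain ⟨u, h1, h2, h3, h4⟩ := exists_near_hardy (n := n) (by linarith) hb
      exact ⟨u, ⟨h1, h2, h3, fun h5 => absurd h5 hno⟩, h4⟩
  · apply bestConst_eq
    · intro u hu
      exact lower_ground u hu.1 hu.2.1
    · intro b hb
      push Not at h
      obtain ⟨u, h1, h2, h3, h4⟩ := exists_near_ground (n := n) hα h hb
      exact ⟨u, ⟨h1, h2, h3, fun h5 => absurd h5 hno⟩, h4⟩

end Pool.Agent.Results.MP_5b99fd_an.LargeAlpha
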